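import Pool.Agent.FRK.GP

/-!
# MP_3e7e8f_al: complements of arbitrary prime order `p ≥ 5`, primes `r = 1 (mod p)`, `r > p (p - 1) / 2`

`result`: let `p ≥ 5` be a prime and `G = F⟨a⟩`, `F` normal, `a` of order `p` acting on `F` without nontrivial fixed
points, such that every two elements of `G` generate a finite subgroup, and either all these subgroups are soluble or
`F` is an `r`-group for some prime `r`.  Then finitely many elements of `F` whose orders are divisible only by primes
`r = 1 (mod p)` with `p (p - 1) < 2 r` generate a finite subgroup; and `G` is locally finite as soon as, for every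
other prime `r`, every finite set of elements of `F` of `r`-power order generates a finite subgroup.
For `p = 5` and `p = 7` every prime `r = 1 (mod p)` satisfies `p (p - 1) < 2 r`.
-/

set_option autoImplicit false

namespace Pool.Agent.Results.MP_3e7e8f_al.AllOrders

open Pool.Agent.FRK

universe u

theorem result :
    ∀ (p : ℕ), p.Prime → 5 ≤ p → ∀ (G : Type u) [Group G] (F : Subgroup G) (a : G),
      F.Normal →
      orderOf a = p →
      (∀ g : G, ∃ f ∈ F, ∃ k : ℕ, g = f * a ^ k) →
      (∀ f ∈ F, a * f * a⁻¹ = f → f = 1) →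
      (∀ x y : G, ((Subgroup.closure ({x, y} : Set G) : Subgroup G) : Set G).Finite) →
      ((∀ x y : G, Group.IsSolvable (Subgroup.closure ({x, y} : Set G))) ∨
        ∃ r : ℕ, r.Prime ∧ ∀ f ∈ F, ∃ n : ℕ, orderOf f = r ^ n) →
      (∀ s : Finset G, (∀ x ∈ s, x ∈ F ∧ ∀ r : ℕ, r.Prime → r ∣ orderOf x → r % p = 1 ∧ p * (p - 1) < 2 * r) →
        ((Subgroup.closure (s : Set G) : Subgroup G) : Set G).Finite) ∧
      ((∀ r : ℕ, r.Prime → ¬ (r % p = 1 ∧ p * (p - 1) < 2 * r) → ∀ s : Finset G,
          (∀ x ∈ s, x ∈ F ∧ ∃ n : ℕ, orderOf x = r ^ n) →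
          ((Subgroup.closure (s : Set G) : Subgroup G) : Set G).Finite) →
        ∀ s : Finset G, ((Subgroup.closure (s : Set G) : Subgroup G) : Set G).Finite) := by
  intro p hp h5 G _ F a hFn ha hgen hfpf hbin hsol
  exact glue_r hp h5 G F a hFn ha hgen hfpf hbin hsol

end Pool.Agent.Results.MP_3e7e8f_al.AllOrders
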