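import Pool.Agent.BFS.CF

/-!
# MP_3e7e8f_al: kernels whose nontrivial elements have locally finite centralisers, all residue classes modulo `p`

`result`: let `p ≥ 5` be a prime and `G = F⟨a⟩`, `F` a normal `r`-subgroup, `a` of order `p` acting on `F` without
nontrivial fixed points, every two elements of `G` generating a finite subgroup.  Put `h = (p - 1) ^ (2 ^ (p - 1) - 1)`
and suppose that `h * (p + 1) < 2 * r` (no condition on `r` modulo `p`).  Suppose that either there is a locally finite
normal subgroup `R` of `G` inside `F` such that for all `x ∈ F` outside `R` the subgroup of all `y ∈ F` with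
`[x, y] ∈ R` is locally finite (for `R = 1`: centralisers of nontrivial elements of `F` are locally finite), or every
proper subgroup of `F` is locally finite.  Then `F` is nilpotent of class at most `3 * h` and `G` is locally finite.
-/

set_option autoImplicit false

namespace Pool.Agent.Results.MP_3e7e8f_al.CentralizerCriterion

open Pool.Agent.BFS

universe u

theorem result :
    ∀ (p : ℕ), p.Prime → 5 ≤ p → ∀ (G : Type u) [Group G] (F : Subgroup G) (a : G),
      F.Normal →
      orderOf a = p →
      (∀ g : G, ∃ f ∈ F, ∃ k : ℕ, g = f * a ^ k) →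
      (∀ f ∈ F, a * f * a⁻¹ = f → f = 1) →
      (∀ x y : G, ((Subgroup.closure ({x, y} : Set G) : Subgroup G) : Set G).Finite) →
      ∀ r : ℕ, r.Prime → (p - 1) ^ (2 ^ (p - 1) - 1) * (p + 1) < 2 * r →
      (∀ f ∈ F, ∃ n : ℕ, orderOf f = r ^ n) →
      ((∃ R : Subgroup G, R ≤ F ∧ R.Normal ∧
          (∀ s : Finset G, (s : Set G) ⊆ R → ((Subgroup.closure (s : Set G) : Subgroup G) : Set G).Finite) ∧
          ∀ x ∈ F, x ∉ R → ∀ s : Finset G, (∀ y ∈ s, y ∈ F ∧ x * y * x⁻¹ * y⁻¹ ∈ R) →
            ((Subgroup.closure (s : Set G) : Subgroup G) : Set G).Finite) ∨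
        ∀ T : Subgroup G, T < F → ∀ s : Finset G, (s : Set G) ⊆ T →
          ((Subgroup.closure (s : Set G) : Subgroup G) : Set G).Finite) →
      Subgroup.upperCentralSeries F (3 * (p - 1) ^ (2 ^ (p - 1) - 1)) = ⊤ ∧
        ∀ s : Finset G, ((Subgroup.closure (s : Set G) : Subgroup G) : Set G).Finite := by
  intro p hp h5 G _ F a hFn ha hgen hfpf hbin r hr hb hF hc
  rcases hc with ⟨R, hRF, hRn, hRl, hc⟩ | hc
  · exact glueR hp h5 F a hFn ha hgen hfpf hbin r hr hb hF R hRF hRn hRl hc
  · exact glueP hp h5 F a hFn ha hgen hfpf hbin r hr hb hF hc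

end Pool.Agent.Results.MP_3e7e8f_al.CentralizerCriterion
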