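import Pool.Agent.BFS.AG

/-!
# MP_3e7e8f_al: locally finite subgroups of the kernel and their normalisers, all residue classes modulo `p`

`result`: let `p ≥ 5` be a prime, `G` a group in which every two elements generate a finite subgroup, `F` a normal
`r`-subgroup and `a` an element of order `p` acting on `F` without nontrivial fixed points.  Put
`h = (p - 1) ^ (2 ^ (p - 1) - 1)` and suppose that `h * (p + 1) < 2 * r` (no condition on `r` modulo `p`).
For every locally finite subgroup `D` of `F` normalised by `a`: `D` is contained in the term with index `3 * h ^ 2` of the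
upper central series of the normaliser of `D` in `F`, and this normaliser is locally finite if the centraliser of `D` in
`F` is.  Every locally finite normal subgroup of `F` is contained in the term with index `3 * h ^ 2` of the upper central
series of `F`.
-/

set_option autoImplicit false

namespace Pool.Agent.Results.MP_3e7e8f_al.HypercentralRadical

open Pool.Agent.BFS

universe u

theorem result :
    ∀ (p : ℕ), p.Prime → 5 ≤ p → ∀ (G : Type u) [Group G] (F : Subgroup G) (a : G),
      F.Normal →
      orderOf a = p →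
      (∀ f ∈ F, a * f * a⁻¹ = f → f = 1) →
      (∀ x y : G, ((Subgroup.closure ({x, y} : Set G) : Subgroup G) : Set G).Finite) →
      ∀ r : ℕ, r.Prime → (p - 1) ^ (2 ^ (p - 1) - 1) * (p + 1) < 2 * r →
      (∀ f ∈ F, ∃ n : ℕ, orderOf f = r ^ n) →
      (∀ D : Subgroup G, D ≤ F → (∀ x ∈ D, a * x * a⁻¹ ∈ D) →
        (∀ s : Finset G, (s : Set G) ⊆ D → ((Subgroup.closure (s : Set G) : Subgroup G) : Set G).Finite) →
        D.subgroupOf (F ⊓ Subgroup.normalizer (D : Set G)) ≤
          Subgroup.upperCentralSeries (F ⊓ Subgroup.normalizer (D : Set G) : Subgroup G)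
            (3 * ((p - 1) ^ (2 ^ (p - 1) - 1)) ^ 2) ∧
        ((∀ s : Finset G, (s : Set G) ⊆ (F ⊓ Subgroup.centralizer (D : Set G) : Subgroup G) →
            ((Subgroup.closure (s : Set G) : Subgroup G) : Set G).Finite) →
          ∀ s : Finset G, (s : Set G) ⊆ (F ⊓ Subgroup.normalizer (D : Set G) : Subgroup G) →
            ((Subgroup.closure (s : Set G) : Subgroup G) : Set G).Finite)) ∧
      (∀ N : Subgroup G, N ≤ F → (∀ f ∈ F, ∀ x ∈ N, f * x * f⁻¹ ∈ N) →
        (∀ s : Finset G, (s : Set G) ⊆ N → ((Subgroup.closure (s : Set G) : Subgroup G) : Set G).Finite) →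
        N.subgroupOf F ≤ Subgroup.upperCentralSeries F (3 * ((p - 1) ^ (2 ^ (p - 1) - 1)) ^ 2)) := by
  intro p hp h5 G _ F a hFn ha hfpf hbin r hr hb hF
  obtain ⟨h1, h2⟩ := glueA hp h5 F a hFn ha hfpf hbin r hr hb hF
  refine ⟨fun D hDF hD hl => ⟨?_, fun hC => h2 D hDF hD hl hC⟩, fun N hNF hN hl => h1 N hNF hN hl⟩
  exact glueA2 hp h5 F a hFn ha hfpf hbin r hr hb hF D hDF hD hl

end Pool.Agent.Results.MP_3e7e8f_al.HypercentralRadical
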