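import Pool.Agent.FRC.FiveB

/-!
# MP_3e7e8f_al: the kernel is the direct product of its primary components

`result`: let `G = F⟨a⟩`, `F` normal, `a` of prime order `p` acting on `F` without nontrivial fixed points, such that every
two elements of `G` generate a finite soluble subgroup.  Then elements of `F` of coprime orders commute, for every
prime `r` the elements of `F` of `r`-power order are closed under multiplication, two elements of `F` generate a
nilpotent subgroup, and `G` is locally finite as soon as,
for every prime `r`, every finite set of elements of `F` of `r`-power order generates a finite subgroup.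
-/

set_option autoImplicit false

namespace Pool.Agent.Results.MP_3e7e8f_al.KernelPrimary

open Pool.Agent.FRC

universe u

theorem result :
    ∀ (G : Type u) [Group G] (F : Subgroup G) (a : G) (p : ℕ),
      p.Prime →
      F.Normal →
      orderOf a = p →
      (∀ g : G, ∃ f ∈ F, ∃ k : ℕ, g = f * a ^ k) →
      (∀ f ∈ F, a * f * a⁻¹ = f → f = 1) →
      (∀ x y : G, ((Subgroup.closure ({x, y} : Set G) : Subgroup G) : Set G).Finite) →
      (∀ x y : G, Group.IsSolvable (Subgroup.closure ({x, y} : Set G))) →
      (∀ x ∈ F, ∀ y ∈ F, (orderOf x).Coprime (orderOf y) → x * y = y * x) ∧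
      (∀ r : ℕ, r.Prime → ∀ x ∈ F, ∀ y ∈ F, (∃ n : ℕ, orderOf x = r ^ n) → (∃ n : ℕ, orderOf y = r ^ n) →
        ∃ n : ℕ, orderOf (x * y) = r ^ n) ∧
      (∀ x ∈ F, ∀ y ∈ F, Group.IsNilpotent (Subgroup.closure ({x, y} : Set G))) ∧
      ((∀ r : ℕ, r.Prime → ∀ s : Finset G, (∀ x ∈ s, x ∈ F ∧ ∃ n : ℕ, orderOf x = r ^ n) →
          ((Subgroup.closure (s : Set G) : Subgroup G) : Set G).Finite) →
        ∀ s : Finset G, ((Subgroup.closure (s : Set G) : Subgroup G) : Set G).Finite) := by
  intro G _ F a p hp hFn ha hgen hfpf hbin hsol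
  have H : HG p F a := hg_mk hp hFn ha hgen hfpf hbin hsol
  refine ⟨fun x hx y hy hc => (comm_cop H hx hy hc).eq, fun r hr x hx y hy hxr hyr => ?_,
    fun x hx y hy => bin_nilp H hx hy, fun h => ?_⟩
  · exact (pe_iff hr).1 (prim_mul H hr hx hy ((pe_iff hr).2 hxr) ((pe_iff hr).2 hyr))
  · refine lf_top_of_kernel H (lf_of_primary H fun r hr s hs => h r hr s fun x hx => ?_)
    have h1 : x ∈ Prim H hr := by
      rw [← Prim_closure H hr]
      exact hs hx
    exact ⟨h1.1, (pe_iff hr).1 h1.2⟩

end Pool.Agent.Results.MP_3e7e8f_al.KernelPrimary
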